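import Pool.Agent.R634.FSep.Smz

/-!
Under the Borel conjecture, a Tychonoff space with `F`-separable `C_p(X)` is countable.
-/

open Filter Topology Set Cardinal

namespace Pool.Agent.R634.FSep

universe u v

section main

variable {X : Type u} [TopologicalSpace X]

theorem countable_range (hBC : BorelConjecture) {A : Set (Cp X)} (hA : FClosure A = Set.univ)
    (h : X → ℝ) (hh : Continuous h) : (range h).Countable := by
  by_contra hunc
  have h1 : ℵ₁ ≤ #(range h) := by
    rw [aleph_one_le_iff]
    rw [← le_aleph0_iff_set_countable, not_le] at hunc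
    exact hunc
  let ι : Type := (ℵ₁ : Cardinal.{0}).ord.ToType
  have hι : #ι = ℵ₁ := mk_ord_toType _
  rw [← hι] at h1
  obtain ⟨e⟩ := h1
  have hex : ∀ i : ι, ∃ y, h y = (e i : ℝ) := fun i => (e i).2
  choose x hx using hex
  have hιc : ¬ Countable ι := by
    intro hc
    have := mk_le_aleph0_iff.2 hc
    rw [hι] at this
    exact absurd aleph0_lt_aleph_one (not_lt.2 this)
  have hI : ∀ i : ι, (Iic i).Countable := by
    intro i
    have h2 : (Iio i).Countable := by
      rw [countable_iff_lt_aleph_one]
      have := mk_Iio_lt i (by simp [ι])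
      rwa [hι] at this
    have h3 : Iic i = insert i (Iio i) := by
      ext j
      simp [le_iff_eq_or_lt]
    rw [h3]
    exact h2.insert i
  have hb : BddFam ι := by
    intro W _ φ
    exact bounded_of_BC' hBC hιc hI φ
  have hs := smz_range hA hb h hh x
  have hc := hBC _ hs
  apply hιc
  have hinj : Function.Injective (fun i => h (x i)) := by
    intro i j hij
    simp only [hx] at hij
    exact e.injective (Subtype.ext hij)
  have h4 : (Set.univ : Set ι).Countable := by
    have h5 : (fun i => h (x i)) '' Set.univ ⊆ range (fun i => h (x i)) := by simp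
    exact countable_of_injective_of_countable_image hinj.injOn (hc.mono h5)
  exact Set.countable_univ_iff.1 h4

/-- Under the Borel conjecture, a Tychonoff space with `F`-separable `C_p(X)` is countable. -/
theorem countable_space (hBC : BorelConjecture) [T35Space X] {A : Set (Cp X)}
    (hAc : A.Countable) (hA : FClosure A = Set.univ) : Countable X := by
  classical
  rcases isEmpty_or_nonempty X with hX | hX
  · infer_instance
  have hcr := fun (h : X → ℝ) (hh : Continuous h) => countable_range hBC hA h hh
  -- cut points
  have hcut : ∀ (a : A) (p q : ℚ), ∃ r : ℝ, r ∉ range a.1.1 ∧ (p < q → (p : ℝ) < r ∧ r < q) := by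
    intro a p q
    have hd : Dense (range a.1.1)ᶜ := (hcr a.1.1 a.1.2).dense_compl ℝ
    by_cases hpq : p < q
    · obtain ⟨r, hr, hr2⟩ := hd.exists_between (show (p : ℝ) < q by exact_mod_cast hpq)
      exact ⟨r, hr, fun _ => hr2⟩
    · obtain ⟨r, hr, -⟩ := hd.exists_between (show (0 : ℝ) < 1 by norm_num)
      exact ⟨r, hr, fun h => absurd h hpq⟩
  choose r hr hr2 using hcut
  have hcl : ∀ a p q, IsClopen {x | a.1.1 x < r a p q} := by
    intro a p q
    constructor
    · have : {x | a.1.1 x < r a p q} = {x | a.1.1 x ≤ r a p q} := by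
        ext x
        simp only [Set.mem_ofPred_eq]
        refine ⟨le_of_lt, fun h => lt_of_le_of_ne h (fun h2 => hr a p q ⟨x, h2⟩)⟩
      rw [this]
      exact isClosed_le a.1.2 continuous_const
    · exact isOpen_lt a.1.2 continuous_const
  have : Countable A := hAc.to_subtype
  have hAne : Nonempty A := by
    have : (⟨fun _ => 0, continuous_const⟩ : Cp X) ∈ FClosure A := by rw [hA]; trivial
    obtain ⟨u, hu, -⟩ := this.2 A subset_rfl this.1
    exact ⟨⟨u 0, hu 0⟩⟩
  obtain ⟨σ, hσ⟩ := exists_surjective_nat (A × ℚ × ℚ)
  let b : X → ℕ → Bool := fun x n =>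
    decide ((σ n).1.1.1 x < r (σ n).1 (σ n).2.1 (σ n).2.2)
  let e : X → ℝ := fun x => cantorFunction (1 / 3) (b x)
  have hbc : ∀ n, Continuous (fun x => b x n) := by
    intro n
    rw [continuous_bool_rng true]
    have : (fun x => b x n) ⁻¹' {true} =
        {x | (σ n).1.1.1 x < r (σ n).1 (σ n).2.1 (σ n).2.2} := by
      ext x
      simp [b]
    rw [this]
    exact hcl _ _ _
  have he : Continuous e := by
    show Continuous (fun x => ∑' n, cantorFunctionAux (1 / 3) (b x) n)
    refine continuous_tsum (u := fun n : ℕ => (1 / 3 : ℝ) ^ n) (fun n => ?_)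
      (summable_geometric_of_lt_one (by norm_num) (by norm_num)) (fun n x => ?_)
    · exact (continuous_of_discreteTopology (f := fun t : Bool => cond t ((1 / 3 : ℝ) ^ n) 0)).comp
        (hbc n)
    · unfold cantorFunctionAux
      cases b x n
      · simp
      · simp
  have hinj : Function.Injective e := by
    intro x y hxy
    have hb := cantorFunction_injective (by norm_num) (by norm_num) hxy
    by_contra hne
    obtain ⟨f, hf, hf0, hf1⟩ := CompletelyRegularSpace.completely_regular x {y}
      isClosed_singleton (by simpa using hne)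
    have hf1' : f y = 1 := hf1 rfl
    let g : Cp X := ⟨fun z => (f z : ℝ), by fun_prop⟩
    have hg : g ∈ closure A := by
      have : g ∈ FClosure A := by rw [hA]; trivial
      exact this.1
    rw [mem_closure_iff_fin] at hg
    obtain ⟨a, haA, ha⟩ := hg {x, y} (1 / 4) (by norm_num)
    have hax := ha x (by simp)
    have hay := ha y (by simp)
    simp only [g, hf0, hf1'] at hax hay
    have hax' : a.1 x < 1 / 4 := by
      rw [abs_lt] at hax
      simp at hax
      linarith [hax.2]
    have hay' : 3 / 4 < a.1 y := by
      rw [abs_lt] at hay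
      simp at hay
      linarith [hay.1]
    obtain ⟨n, hn⟩ := hσ (⟨a, haA⟩, ((1 / 4 : ℚ), (3 / 4 : ℚ)))
    have hbn := congrFun hb n
    have hrr := hr2 ⟨a, haA⟩ (1 / 4) (3 / 4) (by norm_num)
    simp only [b, hn] at hbn
    have h1 : a.1 x < r ⟨a, haA⟩ (1 / 4) (3 / 4) := by
      refine hax'.trans ?_
      have := hrr.1
      norm_num at this ⊢
      exact this
    have h2 : ¬ a.1 y < r ⟨a, haA⟩ (1 / 4) (3 / 4) := by
      have := hrr.2
      norm_num at this ⊢
      linarith
    rw [decide_eq_true h1, decide_eq_false h2] at hbn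
    exact absurd hbn (by simp)
  have h4 : (Set.univ : Set X).Countable := by
    have h5 : e '' Set.univ ⊆ range e := by simp
    exact countable_of_injective_of_countable_image hinj.injOn ((hcr e he).mono h5)
  exact Set.countable_univ_iff.1 h4

/-- For countable `X`, the space `C_p(X)` is Frechet-Urysohn. -/
theorem frechetUrysohn_of_countable [Countable X] : FrechetUrysohn (Cp X) := by
  intro A y hy
  have : FrechetUrysohnSpace (Cp X) := inferInstance
  obtain ⟨u, hu, hu2⟩ := this.closure_subset_seqClosure A hy
  exact ⟨u, hu, hu2⟩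

/-- The Borel conjecture implies a positive answer. -/
theorem question_of_BC (hBC : BorelConjecture) : Question.{u} := by
  intro X _ _ hX
  obtain ⟨A, hAc, hA⟩ := hX
  have := countable_space hBC hAc hA
  exact frechetUrysohn_of_countable

end main

end Pool.Agent.R634.FSep
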