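import Mathlib

/-!
Definitions for MP_1ca5ad_gt: `C_p(X)`, `F`-closure, `F`-separability,
strong measure zero sets, the Borel conjecture and the inequality `ω₁ < 𝔭`.
-/

open Filter Topology Set

namespace Pool.Agent.R634.FSep

universe u

/-- `C_p(X)`: the continuous functions `X → ℝ` with the topology of pointwise convergence
(the subspace topology inherited from the product `X → ℝ`). -/
abbrev Cp (X : Type u) [TopologicalSpace X] : Type u := {f : X → ℝ // Continuous f}

/-- The `F`-closure of `A`: the points `y` of the closure of `A` such that, whenever `A' ⊆ A`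
and `y` is in the closure of `A'`, some sequence of points of `A'` converges to `y`. -/
def FClosure {Y : Type u} [TopologicalSpace Y] (A : Set Y) : Set Y :=
  {y | y ∈ closure A ∧ ∀ A' ⊆ A, y ∈ closure A' →
    ∃ u : ℕ → Y, (∀ n, u n ∈ A') ∧ Tendsto u atTop (𝓝 y)}

/-- `Y` is `F`-separable: it has a countable subset whose `F`-closure is `Y`. -/
def FSeparable (Y : Type u) [TopologicalSpace Y] : Prop :=
  ∃ A : Set Y, A.Countable ∧ FClosure A = univ

/-- `Y` is Frechet-Urysohn: every point of a closure `closure A` is the limit of a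
sequence of points of `A`. -/
def FrechetUrysohn (Y : Type u) [TopologicalSpace Y] : Prop :=
  ∀ (A : Set Y) (y : Y), y ∈ closure A →
    ∃ u : ℕ → Y, (∀ n, u n ∈ A) ∧ Tendsto u atTop (𝓝 y)

/-- The statement of Q1: for every Tychonoff space `X`, if `C_p(X)` is `F`-separable, then
`C_p(X)` is Frechet-Urysohn. -/
def Question : Prop :=
  ∀ (X : Type u) [TopologicalSpace X] [T35Space X],
    FSeparable (Cp X) → FrechetUrysohn (Cp X)

/-- `Z ⊆ ℝ` has strong measure zero: for every sequence `ε 0, ε 1, ...` of positive reals it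
is covered by closed intervals of lengths `ε 0, ε 1, ...`. -/
def StrongMeasureZero (Z : Set ℝ) : Prop :=
  ∀ ε : ℕ → ℝ, (∀ n, 0 < ε n) → ∃ a : ℕ → ℝ, Z ⊆ ⋃ n, Icc (a n) (a n + ε n)

/-- The Borel conjecture: every strong measure zero set of reals is countable. -/
def BorelConjecture : Prop := ∀ Z : Set ℝ, StrongMeasureZero Z → Z.Countable

/-- `ω₁ < 𝔭`: every family of at most `ℵ₁` subsets of `ℕ`, all of whose finite subfamilies
have infinite intersection, has an infinite pseudo-intersection. -/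
def OmegaOneLtP : Prop :=
  ∀ F : Set (Set ℕ), Cardinal.mk F ≤ Cardinal.aleph 1 →
    (∀ S : Finset (Set ℕ), (S : Set (Set ℕ)) ⊆ F → (⋂₀ (S : Set (Set ℕ))).Infinite) →
    ∃ P : Set ℕ, P.Infinite ∧ ∀ B ∈ F, (P \ B).Finite

/-- Membership in a closure in `C_p(X)`, spelled out. -/
lemma mem_closure_iff_fin {X : Type u} [TopologicalSpace X] (S : Set (Cp X)) (f : Cp X) :
    f ∈ closure S ↔ ∀ F : Finset X, ∀ ε : ℝ, 0 < ε →
      ∃ g ∈ S, ∀ x ∈ F, |g.1 x - f.1 x| < ε := by
  have hb : (𝓝 f).HasBasis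
      (fun s : Set X × (X → ℝ) => s.1.Finite ∧ ∀ x ∈ s.1, 0 < s.2 x)
      (fun s => Subtype.val ⁻¹' (s.1.pi fun x => Metric.ball (f.1 x) (s.2 x))) := by
    rw [nhds_subtype_eq_comap, nhds_pi]
    exact (Filter.hasBasis_pi (fun x => Metric.nhds_basis_ball)).comap _
  rw [mem_closure_iff_nhds_basis hb]
  constructor
  · intro h F ε hε
    obtain ⟨g, hg, hg2⟩ := h (↑F, fun _ => ε) ⟨F.finite_toSet, fun _ _ => hε⟩
    refine ⟨g, hg, fun x hx => ?_⟩
    have := hg2 x (by simpa using hx)
    simpa [Real.dist_eq] using this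
  · rintro h ⟨s, δ⟩ ⟨hs, hδ⟩
    simp only at hs hδ
    obtain ⟨ε, hε, hε2⟩ : ∃ ε : ℝ, 0 < ε ∧ ∀ x ∈ s, ε ≤ δ x := by
      rcases s.eq_empty_or_nonempty with h0 | h0
      · exact ⟨1, one_pos, by simp [h0]⟩
      · obtain ⟨x₀, hx₀, hmin⟩ := Set.exists_min_image s δ hs h0
        exact ⟨δ x₀, hδ x₀ hx₀, hmin⟩
    obtain ⟨g, hg, hg2⟩ := h hs.toFinset ε hε
    refine ⟨g, hg, fun x hx => ?_⟩
    have := hg2 x (by simpa using hx)
    simp only [Metric.mem_ball, Real.dist_eq]
    exact lt_of_lt_of_le this (hε2 x hx)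

/-- Convergence in `C_p(X)` is pointwise convergence. -/
lemma tendsto_iff_pointwise {X : Type u} [TopologicalSpace X] {ι : Type*} {l : Filter ι}
    (v : ι → Cp X) (f : Cp X) :
    Tendsto v l (𝓝 f) ↔ ∀ x, Tendsto (fun n => (v n).1 x) l (𝓝 (f.1 x)) := by
  rw [tendsto_subtype_rng, tendsto_pi_nhds]

end Pool.Agent.R634.FSep
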