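import Pool.Agent.R634.FSep.Defs

/-!
If `ω₁ < 𝔭`, then `C_p` of the discrete space of size `ℵ₁` is `F`-separable, but not
Frechet-Urysohn.
-/

open Filter Topology Set Cardinal

namespace Pool.Agent.R634.FSep

universe u

section neg

variable {X : Type u} [TopologicalSpace X]

lemma infinite_hits (a : ℕ → Cp X) (A' : Set (Cp X)) (hA' : A' ⊆ range a) (f : Cp X)
    (hf : f ∈ closure A') (hfA : f ∉ A') (F : Finset X) (ε : ℝ) (hε : 0 < ε) :
    {n | a n ∈ A' ∧ ∀ x ∈ F, |(a n).1 x - f.1 x| < ε}.Infinite := by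
  classical
  intro hfin
  rw [mem_closure_iff_fin] at hf
  have hne : ∀ n, ∃ x, a n ∈ A' → (a n).1 x ≠ f.1 x := by
    intro n
    by_cases hn : a n ∈ A'
    · have h1 : a n ≠ f := fun h => hfA (h ▸ hn)
      have h2 : (a n).1 ≠ f.1 := fun h => h1 (Subtype.ext h)
      obtain ⟨x, hx⟩ := Function.ne_iff.1 h2
      exact ⟨x, fun _ => hx⟩
    · obtain ⟨g, hg, -⟩ := hf F ε hε
      by_cases hX : Nonempty X
      · exact ⟨Classical.arbitrary X, fun h => absurd h hn⟩
      · exfalso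
        apply hfA
        have : g = f := Subtype.ext (funext (fun x => absurd ⟨x⟩ hX))
        exact this ▸ hg
  choose x hx using hne
  obtain ⟨ε', hε', hle, hmin⟩ : ∃ ε' : ℝ, 0 < ε' ∧ ε' ≤ ε ∧ ∀ n ∈ hfin.toFinset,
      ε' ≤ |(a n).1 (x n) - f.1 (x n)| := by
    rcases hfin.toFinset.eq_empty_or_nonempty with h0 | h0
    · exact ⟨ε, hε, le_rfl, by simp [h0]⟩
    · obtain ⟨n₀, hn₀, hmin⟩ := Finset.exists_min_image hfin.toFinset
        (fun n => |(a n).1 (x n) - f.1 (x n)|) h0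
      refine ⟨min ε |(a n₀).1 (x n₀) - f.1 (x n₀)|, lt_min hε ?_, min_le_left _ _,
        fun n hn => (min_le_right _ _).trans (hmin n hn)⟩
      have h1 : a n₀ ∈ A' := ((hfin.mem_toFinset).1 hn₀).1
      exact abs_pos.2 (sub_ne_zero.2 (hx n₀ h1))
  obtain ⟨g, hg, hg2⟩ := hf (F ∪ hfin.toFinset.image x) ε' hε'
  obtain ⟨n, rfl⟩ := hA' hg
  have hn : n ∈ hfin.toFinset := by
    rw [hfin.mem_toFinset]
    exact ⟨hg, fun y hy => (hg2 y (Finset.mem_union_left _ hy)).trans_le hle⟩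
  have h1 := hg2 (x n) (Finset.mem_union_right _ (Finset.mem_image_of_mem _ hn))
  exact absurd h1 (not_lt.2 (hmin n hn))

/-- Under `ω₁ < 𝔭`, in `C_p(X)` with `|X| = ℵ₁` every countable set is Frechet-Urysohn at every
point of its closure. -/
lemma seq_of_p (hp : OmegaOneLtP) {ι : Type} (hι : #ι = ℵ₁) (d : ι ≃ X) (a : ℕ → Cp X)
    (A' : Set (Cp X)) (hA' : A' ⊆ range a) (f : Cp X) (hf : f ∈ closure A') :
    ∃ u : ℕ → Cp X, (∀ n, u n ∈ A') ∧ Tendsto u atTop (𝓝 f) := by
  classical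
  by_cases hfA : f ∈ A'
  · exact ⟨fun _ => f, fun _ => hfA, tendsto_const_nhds⟩
  let B : ι × ℕ → Set ℕ := fun p =>
    {n | a n ∈ A' ∧ |(a n).1 (d p.1) - f.1 (d p.1)| < 1 / ((p.2 : ℝ) + 1)}
  have hcard : #(range B) ≤ ℵ₁ := by
    refine mk_range_le.trans ?_
    rw [mk_prod, hι]
    simp
  have hfip : ∀ S : Finset (Set ℕ), (S : Set (Set ℕ)) ⊆ range B →
      (⋂₀ (S : Set (Set ℕ))).Infinite := by
    intro S hS
    have hex : ∃ F₀ : Finset X, ∃ ε : ℝ, 0 < ε ∧
        {n | a n ∈ A' ∧ ∀ x ∈ F₀, |(a n).1 x - f.1 x| < ε} ⊆ ⋂₀ (S : Set (Set ℕ)) := by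
      induction S using Finset.induction_on with
      | empty => exact ⟨∅, 1, one_pos, by simp⟩
      | insert s S hs ih =>
        rw [Finset.coe_insert] at hS
        obtain ⟨F₀, ε, hε, hsub⟩ := ih ((Set.subset_insert _ _).trans hS)
        obtain ⟨p, hp⟩ := hS (Set.mem_insert _ _)
        refine ⟨insert (d p.1) F₀, min ε (1 / ((p.2 : ℝ) + 1)),
          lt_min hε (by positivity), ?_⟩
        rw [Finset.coe_insert, sInter_insert]
        intro n hn
        constructor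
        · rw [← hp]
          exact ⟨hn.1, (hn.2 _ (Finset.mem_insert_self _ _)).trans_le (min_le_right _ _)⟩
        · exact hsub ⟨hn.1, fun x hx =>
            (hn.2 x (Finset.mem_insert_of_mem hx)).trans_le (min_le_left _ _)⟩
    obtain ⟨F₀, ε, hε, hsub⟩ := hex
    exact (infinite_hits a A' hA' f hf hfA F₀ ε hε).mono hsub
  obtain ⟨P, hP, hPB⟩ := hp (range B) hcard hfip
  let v : ℕ → ℕ := Nat.nth (· ∈ P)
  have hv : StrictMono v := Nat.nth_strictMono hP
  have hvP : ∀ n, v n ∈ P := fun n => Nat.nth_mem_of_infinite hP n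
  have hev : ∀ p, ∀ᶠ n in atTop, v n ∈ B p := by
    intro p
    have h1 := hPB (B p) ⟨p, rfl⟩
    have h2 : (v ⁻¹' (P \ B p)).Finite := h1.preimage hv.injective.injOn
    rw [← Nat.cofinite_eq_atTop]
    filter_upwards [h2.compl_mem_cofinite] with n hn
    by_contra hnB
    exact hn ⟨hvP n, hnB⟩
  have hιne : Nonempty ι := by
    rw [← mk_ne_zero_iff, hι]
    exact (aleph_pos 1).ne'
  obtain ⟨i₀⟩ := hιne
  obtain ⟨N, hN⟩ := eventually_atTop.1 (hev (i₀, 0))
  refine ⟨fun n => a (v (n + N)), fun n => (hN (n + N) (by omega)).1, ?_⟩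
  rw [tendsto_iff_pointwise]
  intro x
  rw [Metric.tendsto_atTop]
  intro ε hε
  obtain ⟨k, hk⟩ := exists_nat_one_div_lt hε
  obtain ⟨M, hM⟩ := eventually_atTop.1 (hev (d.symm x, k))
  refine ⟨M, fun n hn => ?_⟩
  have h1 := (hM (n + N) (by omega)).2
  simp only [Equiv.apply_symm_apply] at h1
  rw [Real.dist_eq]
  exact h1.trans hk

/-- a countable dense set in `C_p(X)` for discrete `X` of size at most continuum -/
lemma exists_dense_seq [DiscreteTopology X] (r : X → ℕ → Bool) (hr : Function.Injective r) :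
    ∃ a : ℕ → Cp X, ∀ f, f ∈ closure (range a) := by
  classical
  let J : Type := Σ m : ℕ, ((Fin m → Bool) → ℚ)
  obtain ⟨σ, hσ⟩ := exists_surjective_nat J
  refine ⟨fun n => ⟨fun x => ((σ n).2 (fun i => r x i) : ℝ), continuous_of_discreteTopology⟩,
    fun f => ?_⟩
  rw [mem_closure_iff_fin]
  intro F ε hε
  -- separate the points of `F`
  have hsep : ∀ p : X × X, ∃ i : ℕ, p.1 ≠ p.2 → r p.1 i ≠ r p.2 i := by
    intro p
    by_cases hp : p.1 = p.2
    · exact ⟨0, fun h => absurd hp h⟩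
    · have : r p.1 ≠ r p.2 := fun h => hp (hr h)
      obtain ⟨i, hi⟩ := Function.ne_iff.1 this
      exact ⟨i, fun _ => hi⟩
  choose c hc using hsep
  let m : ℕ := (F ×ˢ F).sup c + 1
  have hinj : ∀ x ∈ F, ∀ y ∈ F, (fun i : Fin m => r x i) = (fun i : Fin m => r y i) → x = y := by
    intro x hx y hy hxy
    by_contra hne
    have h1 := hc (x, y) hne
    have h2 : c (x, y) < m := Nat.lt_succ_of_le
      (Finset.le_sup (f := c) (Finset.mem_product.2 ⟨hx, hy⟩))
    exact h1 (congrFun hxy ⟨c (x, y), h2⟩)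
  have hq : ∀ x : X, ∃ q : ℚ, |(q : ℝ) - f.1 x| < ε := by
    intro x
    obtain ⟨q, hq1, hq2⟩ := exists_rat_btwn (show f.1 x - ε < f.1 x + ε by linarith)
    refine ⟨q, ?_⟩
    rw [abs_lt]
    constructor <;> linarith
  choose q hq using hq
  let v : (Fin m → Bool) → ℚ := fun t =>
    if h : ∃ x ∈ F, (fun i : Fin m => r x i) = t then q h.choose else 0
  obtain ⟨n, hn⟩ := hσ ⟨m, v⟩
  refine ⟨_, ⟨n, rfl⟩, fun x hx => ?_⟩
  have h : ∃ y ∈ F, (fun i : Fin m => r y i) = (fun i : Fin m => r x i) := ⟨x, hx, rfl⟩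
  have h1 : h.choose = x := hinj _ h.choose_spec.1 _ hx h.choose_spec.2
  have h2 : (σ n).2 (fun i => r x i) = q x := by
    rw [hn]
    show v (fun i => r x i) = q x
    simp only [v, h, dif_pos, h1]
  show |(((σ n).2 (fun i => r x i) : ℚ) : ℝ) - f.1 x| < ε
  rw [h2]
  exact hq x

theorem fseparable_of_p (hp : OmegaOneLtP) {ι : Type} (hι : #ι = ℵ₁) [DiscreteTopology X]
    (d : ι ≃ X) : FSeparable (Cp X) := by
  have h1 : #ι ≤ #(ℕ → Bool) := by
    rw [hι]
    simp
    exact aleph0_lt_continuum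
  obtain ⟨r⟩ := h1
  obtain ⟨a, ha⟩ := exists_dense_seq (fun x : X => r (d.symm x))
    (r.injective.comp d.symm.injective)
  refine ⟨range a, countable_range a, ?_⟩
  ext f
  simp only [Set.mem_univ, iff_true]
  exact ⟨ha f, fun A' hA' hf => seq_of_p hp hι d a A' hA' f hf⟩

theorem not_frechetUrysohn [DiscreteTopology X] (hX : ¬ Countable X) :
    ¬ FrechetUrysohn (Cp X) := by
  classical
  intro hFU
  let χ : Finset X → Cp X := fun F => ⟨fun x => if x ∈ F then 1 else 0,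
    continuous_of_discreteTopology⟩
  let o : Cp X := ⟨fun _ => 1, continuous_const⟩
  have ho : o ∈ closure (range χ) := by
    rw [mem_closure_iff_fin]
    intro F ε hε
    refine ⟨χ F, ⟨F, rfl⟩, fun x hx => ?_⟩
    simp [χ, o, hx, hε]
  obtain ⟨u, hu, hu2⟩ := hFU _ _ ho
  choose F hF using hu
  have hc : (⋃ n, (F n : Set X)).Countable := countable_iUnion (fun n => (F n).countable_toSet)
  have hex : ∃ x, x ∉ ⋃ n, (F n : Set X) := by
    by_contra hno
    push Not at hno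
    apply hX
    rw [← Set.countable_univ_iff]
    exact hc.mono (fun x _ => hno x)
  obtain ⟨x, hx⟩ := hex
  rw [tendsto_iff_pointwise] at hu2
  have h1 := hu2 x
  have h2 : ∀ n, (u n).1 x = 0 := by
    intro n
    rw [← hF n]
    have : x ∉ F n := fun h => hx (mem_iUnion.2 ⟨n, h⟩)
    simp [χ, this]
  simp only [h2] at h1
  have h3 := tendsto_nhds_unique h1 tendsto_const_nhds
  have h4 : o.1 x = 1 := rfl
  rw [h4] at h3
  exact one_ne_zero h3

/-- If `ω₁ < 𝔭`, the answer is negative. -/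
theorem not_question_of_p (hp : OmegaOneLtP) : ¬ Question.{u} := by
  intro hQ
  let ι : Type := (ℵ₁ : Cardinal.{0}).ord.ToType
  have hι : #ι = ℵ₁ := mk_ord_toType _
  let X : Type u := ULift.{u} ι
  let _ : TopologicalSpace X := ⊥
  have : DiscreteTopology X := ⟨rfl⟩
  have hX : ¬ Countable X := by
    intro hc
    have h1 : Countable ι := Equiv.ulift.symm.countable_iff.2 hc
    have := mk_le_aleph0_iff.2 h1
    rw [hι] at this
    exact absurd aleph0_lt_aleph_one (not_lt.2 this)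
  exact not_frechetUrysohn hX (hQ X (fseparable_of_p hp hι Equiv.ulift.symm))

end neg

end Pool.Agent.R634.FSep
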