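import Pool.Agent.R634.FSep.Roth

/-!
Under the Borel conjecture, a Tychonoff space with `F`-separable `C_p(X)` is countable.
-/

open Filter Topology Set

namespace Pool.Agent.R634.FSep

universe u v

/-- A family of functions indexed by `ι` is bounded (for all countable index types `W`). -/
def BddFam (ι : Type v) : Prop :=
  ∀ (W : Type) [Countable W] (φ : ι → W → ℕ),
    ∃ k : W → ℕ, ∀ i, ∀ᶠ w in cofinite, φ i w ≤ k w

section main

variable {X : Type u} [TopologicalSpace X]

lemma exists_seq_of_FClosure {A : Set (Cp X)} (hA : FClosure A = univ) (f : Cp X) :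
    ∃ u : ℕ → Cp X, (∀ n, u n ∈ A) ∧ Tendsto u atTop (𝓝 f) := by
  have hf : f ∈ FClosure A := by rw [hA]; trivial
  exact hf.2 A subset_rfl hf.1

/-- The key lemma. -/
lemma key {A : Set (Cp X)} (hA : FClosure A = univ) {ι : Type v} (hb : BddFam ι)
    {W : Type} [Countable W] (g : W → Cp X) (x : ι → X)
    (hω : ∀ F : Finset X, ∃ w, ∀ y ∈ F, (g w).1 y = 0)
    (hne : ∀ w, ∃ i, 2 ≤ (g w).1 (x i)) :
    ∃ s : ℕ → W, (∀ w, {i | s i = w}.Finite) ∧
      ∀ j, ∀ᶠ i in atTop, (g (s i)).1 (x j) < 1 := by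
  classical
  choose b hbA hbt using fun w => exists_seq_of_FClosure hA (g w)
  have hpt : ∀ w y, Tendsto (fun n => (b w n).1 y) atTop (𝓝 ((g w).1 y)) := fun w y =>
    (tendsto_iff_pointwise _ _).1 (hbt w) y
  have hex : ∀ (i : ι) (w : W), ∃ K : ℕ, ∀ k, K ≤ k →
      |(b w k).1 (x i) - (g w).1 (x i)| < 1 / 2 := by
    intro i w
    have := (Metric.tendsto_atTop.1 (hpt w (x i))) (1 / 2) (by norm_num)
    obtain ⟨K, hK⟩ := this
    exact ⟨K, fun k hk => by simpa [Real.dist_eq] using hK k hk⟩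
  choose φ hφ using hex
  obtain ⟨k, hk⟩ := hb W φ
  choose i₀ hi₀ using hne
  let K : W → ℕ := fun w => max (k w) (φ (i₀ w) w)
  let A' : Set (Cp X) := {f | ∃ w n, K w ≤ n ∧ b w n = f}
  have hA'A : A' ⊆ A := by
    rintro f ⟨w, n, -, rfl⟩
    exact hbA w n
  let z : Cp X := ⟨fun _ => 0, continuous_const⟩
  have hz : z ∈ closure A' := by
    rw [mem_closure_iff_fin]
    intro F ε hε
    obtain ⟨w, hw⟩ := hω F
    have hev : ∀ᶠ n in atTop, ∀ y ∈ F, |(b w n).1 y - (g w).1 y| < ε := by
      rw [Filter.eventually_all_finset]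
      intro y _
      have := (Metric.tendsto_atTop.1 (hpt w y)) ε hε
      obtain ⟨N, hN⟩ := this
      filter_upwards [eventually_ge_atTop N] with n hn
      simpa [Real.dist_eq] using hN n hn
    obtain ⟨n, hn1, hn2⟩ := (hev.and (eventually_ge_atTop (K w))).exists
    refine ⟨b w n, ⟨w, n, hn2, rfl⟩, fun y hy => ?_⟩
    have := hn1 y hy
    rw [hw y hy] at this
    simpa [z] using this
  have hzF : z ∈ FClosure A := by rw [hA]; trivial
  obtain ⟨u, huA, hu⟩ := hzF.2 A' hA'A hz
  choose s n hKn hbu using huA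
  have hupt : ∀ y, Tendsto (fun i => (b (s i) (n i)).1 y) atTop (𝓝 0) := by
    intro y
    have := (tendsto_iff_pointwise _ _).1 hu y
    simp only [← hbu] at this
    exact this
  have hsmall : ∀ y, ∀ᶠ i in atTop, |(b (s i) (n i)).1 y| < 1 / 2 := by
    intro y
    obtain ⟨N, hN⟩ := (Metric.tendsto_atTop.1 (hupt y)) (1 / 2) (by norm_num)
    filter_upwards [eventually_ge_atTop N] with i hi
    simpa [Real.dist_eq] using hN i hi
  have hfin : ∀ w, {i | s i = w}.Finite := by
    intro w
    obtain ⟨N, hN⟩ := eventually_atTop.1 (hsmall (x (i₀ w)))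
    refine (finite_lt_nat N).subset (fun i hi => ?_)
    by_contra hlt
    have hi' : s i = w := hi
    have h1 := hN i (not_lt.1 hlt)
    have h2 := hφ (i₀ w) w (n i) ((le_max_right _ _).trans (by
      have := hKn i; rw [hi'] at this; exact this))
    rw [hi'] at h1
    have h3 := hi₀ w
    rw [abs_lt] at h1 h2
    linarith [h1.2, h2.1]
  refine ⟨s, hfin, fun j => ?_⟩
  -- `s` tends to `cofinite`
  have hs : Tendsto s atTop cofinite := by
    rw [← Nat.cofinite_eq_atTop]
    refine Tendsto.cofinite_of_finite_preimage_singleton (fun w => ?_)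
    exact hfin w
  filter_upwards [hs.eventually (hk j), hsmall (x j)] with i h1 h2
  have h3 := hφ j (s i) (n i) (h1.trans ((le_max_left _ _).trans (hKn i)))
  rw [abs_lt] at h2 h3
  linarith [h2.2, h3.1]

end main

end Pool.Agent.R634.FSep
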