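import Pool.Agent.R634.FSep.Defs

/-!
Rothberger: under the Borel conjecture, every family of `ℵ₁` functions is bounded.
-/

open Filter Topology Set

namespace Pool.Agent.R634.FSep

universe u

/-- partial sums `∑_{j<k} 2^{-a j}` -/
noncomputable def ps (a : ℕ → ℕ) (k : ℕ) : ℝ := ∑ j ∈ Finset.range k, (1 / 2 : ℝ) ^ (a j)

/-- If `a k` is bounded by a function of the `k`-th partial sum, then it is bounded by a
function of `k` that does not depend on `a`. -/
lemma exists_uniform_bound (M : ℝ → ℕ) :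
    ∃ H : ℕ → ℕ, ∀ a : ℕ → ℕ, (∀ k, a k ≤ M (ps a k)) → ∀ k, a k ≤ H k := by
  classical
  let P : ℕ → Finset ℝ := fun k => Nat.rec {0}
    (fun _ s => (s ×ˢ Finset.range (s.sup M + 1)).image (fun p => p.1 + (1 / 2 : ℝ) ^ p.2)) k
  refine ⟨fun k => (P k).sup M, fun a ha => ?_⟩
  have hmem : ∀ k, ps a k ∈ P k := by
    intro k
    induction k with
    | zero => simp [P, ps]
    | succ k ih =>
      have h1 : a k ≤ (P k).sup M := (ha k).trans (Finset.le_sup (f := M) ih)
      have h2 : ps a (k + 1) = ps a k + (1 / 2 : ℝ) ^ (a k) := by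
        simp [ps, Finset.sum_range_succ]
      rw [h2]
      show ps a k + (1 / 2 : ℝ) ^ (a k) ∈
        ((P k) ×ˢ Finset.range ((P k).sup M + 1)).image (fun p => p.1 + (1 / 2 : ℝ) ^ p.2)
      refine Finset.mem_image.2 ⟨(ps a k, a k), ?_, rfl⟩
      rw [Finset.mem_product, Finset.mem_range]
      exact ⟨ih, Nat.lt_succ_of_le h1⟩
  intro k
  exact (ha k).trans (Finset.le_sup (f := M) (hmem k))

/-- the sum `∑ 2^{-a j}` -/
noncomputable def tot (a : ℕ → ℕ) : ℝ := ∑' j, (1 / 2 : ℝ) ^ (a j)

lemma tot_bounds {a : ℕ → ℕ} (ha : StrictMono a) (k : ℕ) :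
    ps a k < tot a ∧ tot a ≤ ps a k + 2 * (1 / 2 : ℝ) ^ (a k) := by
  have hs : Summable (fun j => (1 / 2 : ℝ) ^ (a j)) := by
    refine Summable.of_nonneg_of_le (fun j => by positivity) (fun j => ?_)
      (summable_geometric_of_lt_one (r := (1/2 : ℝ)) (by norm_num) (by norm_num))
    exact pow_le_pow_of_le_one (by norm_num) (by norm_num) (ha.id_le j)
  have hsplit : tot a = ps a k + ∑' j, (1 / 2 : ℝ) ^ (a (j + k)) := by
    unfold tot ps
    exact (hs.sum_add_tsum_nat_add k).symm
  have hs2 : Summable (fun j => (1 / 2 : ℝ) ^ (a (j + k))) := (summable_nat_add_iff k).2 hs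
  have hle : ∀ j, (1 / 2 : ℝ) ^ (a (j + k)) ≤ (1 / 2 : ℝ) ^ (a k) * (1 / 2 : ℝ) ^ j := by
    intro j
    rw [← pow_add]
    refine pow_le_pow_of_le_one (by norm_num) (by norm_num) ?_
    have := ha.add_le_nat j k
    omega
  constructor
  · rw [hsplit]
    have : 0 < ∑' j, (1 / 2 : ℝ) ^ (a (j + k)) :=
      hs2.tsum_pos (fun j => by positivity) 0 (by positivity)
    linarith
  · rw [hsplit]
    have h3 : ∑' j, (1 / 2 : ℝ) ^ (a (j + k)) ≤ ∑' j, (1 / 2 : ℝ) ^ (a k) * (1 / 2 : ℝ) ^ j :=
      hs2.tsum_le_tsum hle ((summable_geometric_of_lt_one (r := (1/2 : ℝ))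
        (by norm_num) (by norm_num)).mul_left _)
    rw [tsum_mul_left, tsum_geometric_of_lt_one (by norm_num) (by norm_num)] at h3
    norm_num at h3 ⊢
    linarith

/-- Rothberger's argument: if for every `H` only countably many `g i` are pointwise `≤ H`, then
the Borel conjecture makes `ι` countable. -/
lemma countable_of_BC (hBC : BorelConjecture) {ι : Type u} (g : ι → ℕ → ℕ)
    (hg : ∀ H : ℕ → ℕ, {i | ∀ k, g i k ≤ H k}.Countable) : Countable ι := by
  classical
  -- strictly increasing sequences above `g i`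
  let a : ι → ℕ → ℕ := fun i k => ∑ j ∈ Finset.range (k + 1), (g i j + 1)
  have hmono : ∀ i, StrictMono (a i) := by
    intro i
    refine strictMono_nat_of_lt_succ (fun k => ?_)
    simp only [a]
    rw [Finset.sum_range_succ _ (k + 1)]
    omega
  have hga : ∀ i k, g i k ≤ a i k := by
    intro i k
    simp only [a]
    rw [Finset.sum_range_succ _ k]
    omega
  have hcount : ∀ M : ℝ → ℕ, {i | ∀ k, a i k ≤ M (ps (a i) k)}.Countable := by
    intro M
    obtain ⟨H, hH⟩ := exists_uniform_bound M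
    refine (hg H).mono (fun i hi k => (hga i k).trans (hH (a i) hi k))
  let Z : Set ℝ := range (fun i => tot (a i))
  have hsmz : StrongMeasureZero Z := by
    intro ε hε
    -- rational centres get the even indices
    have hM : ∀ q : ℝ, ∃ m : ℕ, 0 < m := fun q => ⟨1, one_pos⟩
    -- the countable set of possible partial sums
    let Q : Set ℝ := range (fun p : ℚ => (p : ℝ))
    have hpsQ : ∀ (b : ℕ → ℕ) k, ∃ p : ℚ, (p : ℝ) = ps b k := by
      intro b k
      refine ⟨∑ j ∈ Finset.range k, (1 / 2 : ℚ) ^ (b j), ?_⟩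
      simp [ps]
    obtain ⟨M, hMp⟩ : ∃ M : ℝ → ℕ, ∀ p : ℚ, ∀ m : ℕ, M (p : ℝ) < m →
        2 * (1 / 2 : ℝ) ^ m < ε (2 * Encodable.encode p) / 2 := by
      have h0 : ∀ p : ℚ, ∃ N : ℕ, ∀ m, N < m →
          2 * (1 / 2 : ℝ) ^ m < ε (2 * Encodable.encode p) / 2 := by
        intro p
        obtain ⟨N, hN⟩ := exists_pow_lt_of_lt_one
          (show 0 < ε (2 * Encodable.encode p) / 4 by have := hε (2 * Encodable.encode p); linarith)
          (show (1 / 2 : ℝ) < 1 by norm_num)
        refine ⟨N, fun m hm => ?_⟩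
        have : (1 / 2 : ℝ) ^ m ≤ (1 / 2 : ℝ) ^ N :=
          pow_le_pow_of_le_one (by norm_num) (by norm_num) hm.le
        linarith
      choose N hN using h0
      refine ⟨fun x => if h : ∃ p : ℚ, (p : ℝ) = x then N h.choose else 0, fun p m hm => ?_⟩
      have h : ∃ p' : ℚ, (p' : ℝ) = (p : ℝ) := ⟨p, rfl⟩
      simp only [h, dif_pos] at hm
      have h2 : h.choose = p := by exact_mod_cast h.choose_spec
      rw [h2] at hm
      exact hN p m hm
    -- the exceptional set
    let B : Set ι := {i | ∀ k, a i k ≤ M (ps (a i) k)}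
    have hB : ((fun i => tot (a i)) '' B).Countable := (hcount M).image _
    obtain ⟨e, he⟩ : ∃ e : ℕ → ℝ, (fun i => tot (a i)) '' B ⊆ range e := by
      rcases ((fun i => tot (a i)) '' B).eq_empty_or_nonempty with h | h
      · exact ⟨fun _ => 0, by rw [h]; exact empty_subset _⟩
      · obtain ⟨e, he⟩ := hB.exists_eq_range h
        exact ⟨e, he.subset⟩
    refine ⟨fun n => if n % 2 = 0 then
        (match (Encodable.decode (α := ℚ) (n / 2)) with
          | some p => (p : ℝ) - ε n / 2
          | none => 0) else e (n / 2), ?_⟩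
    rintro z ⟨i, rfl⟩
    rw [mem_iUnion]
    by_cases hi : i ∈ B
    · obtain ⟨n, hn⟩ := he ⟨i, hi, rfl⟩
      refine ⟨2 * n + 1, ?_⟩
      have h1 : (2 * n + 1) % 2 ≠ 0 := by omega
      have h2 : (2 * n + 1) / 2 = n := by omega
      simp only [h1, if_false, h2]
      have h3 := hε (2 * n + 1)
      have hn' : e n = tot (a i) := hn
      rw [hn']
      exact ⟨le_refl _, by show tot (a i) ≤ tot (a i) + _; linarith⟩
    · have hi' : ¬ ∀ k, a i k ≤ M (ps (a i) k) := hi
      push Not at hi'
      obtain ⟨k, hk⟩ := hi'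
      obtain ⟨p, hp⟩ := hpsQ (a i) k
      refine ⟨2 * Encodable.encode p, ?_⟩
      have h1 : (2 * Encodable.encode p) % 2 = 0 := by omega
      have h2 : (2 * Encodable.encode p) / 2 = Encodable.encode p := by omega
      simp only [h1, if_true, h2, Encodable.encodek]
      rw [← hp] at hk
      have h3 := hMp p _ hk
      have h4 := tot_bounds (hmono i) k
      rw [← hp] at h4
      constructor
      · show (p : ℝ) - ε (2 * Encodable.encode p) / 2 ≤ tot (a i)
        have := hε (2 * Encodable.encode p)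
        linarith [h4.1]
      · show tot (a i) ≤ (p : ℝ) - ε (2 * Encodable.encode p) / 2 + ε (2 * Encodable.encode p)
        linarith [h4.2]
  have hZ : Z.Countable := hBC Z hsmz
  -- every fibre is countable
  have hfib : ∀ z : ℝ, {i | tot (a i) = z}.Countable := by
    intro z
    obtain ⟨M, hM⟩ : ∃ M : ℝ → ℕ, ∀ q : ℝ, q < z → ∀ m : ℕ, z ≤ q + 2 * (1 / 2 : ℝ) ^ m →
        m ≤ M q := by
      have h0 : ∀ q : ℝ, ∃ N : ℕ, q < z → ∀ m : ℕ, z ≤ q + 2 * (1 / 2 : ℝ) ^ m → m ≤ N := by
        intro q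
        by_cases hq : q < z
        · obtain ⟨N, hN⟩ := exists_pow_lt_of_lt_one (show 0 < (z - q) / 2 by linarith)
            (show (1 / 2 : ℝ) < 1 by norm_num)
          refine ⟨N, fun _ m hm => ?_⟩
          by_contra hlt
          push Not at hlt
          have : (1 / 2 : ℝ) ^ m ≤ (1 / 2 : ℝ) ^ N :=
            pow_le_pow_of_le_one (by norm_num) (by norm_num) hlt.le
          linarith
        · exact ⟨0, fun h => absurd h hq⟩
      choose N hN using h0
      exact ⟨N, hN⟩
    refine (hcount M).mono ?_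
    intro i hi
    show ∀ k, a i k ≤ M (ps (a i) k)
    intro k
    have hi' : tot (a i) = z := hi
    have h4 := tot_bounds (hmono i) k
    rw [hi'] at h4
    exact hM _ h4.1 _ h4.2
  have : (univ : Set ι).Countable := by
    have hU : (univ : Set ι) = ⋃ z ∈ Z, {i | tot (a i) = z} := by
      ext i
      simp only [mem_univ, mem_iUnion, true_iff]
      exact ⟨tot (a i), ⟨i, rfl⟩, rfl⟩
    rw [hU]
    exact hZ.biUnion (fun z _ => hfib z)
  exact countable_univ_iff.1 this

/-- Countable families of functions are bounded mod finite. -/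
lemma countable_bounded {ι : Type u} (φ : ι → ℕ → ℕ) (S : Set ι) (hS : S.Countable) :
    ∃ g : ℕ → ℕ, ∀ i ∈ S, ∀ᶠ n in atTop, φ i n ≤ g n := by
  rcases S.eq_empty_or_nonempty with h | h
  · exact ⟨fun _ => 0, by simp [h]⟩
  · obtain ⟨e, he⟩ := hS.exists_eq_range h
    refine ⟨fun n => (Finset.range (n + 1)).sup (fun m => φ (e m) n), fun i hi => ?_⟩
    rw [he] at hi
    obtain ⟨m, rfl⟩ := hi
    filter_upwards [eventually_ge_atTop m] with n hn
    exact Finset.le_sup (f := fun m => φ (e m) n) (Finset.mem_range.2 (by omega))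

/-- Under the Borel conjecture every family of functions indexed by an uncountable linear order
with countable initial segments is bounded mod finite. -/
lemma bounded_of_BC (hBC : BorelConjecture) {ι : Type u} [LinearOrder ι] (hι : ¬ Countable ι)
    (hI : ∀ i : ι, (Iic i).Countable) (φ : ι → ℕ → ℕ) :
    ∃ k : ℕ → ℕ, ∀ i, ∀ᶠ n in atTop, φ i n ≤ k n := by
  by_contra hcon
  choose g hg using fun i => countable_bounded φ (Iic i) (hI i)
  apply hι
  refine countable_of_BC hBC g (fun H => ?_)
  by_contra hunc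
  apply hcon
  refine ⟨H, fun j => ?_⟩
  -- some `i ≥ j` has `g i ≤ H`
  obtain ⟨i, hi, hji⟩ : ∃ i ∈ {i | ∀ k, g i k ≤ H k}, j ≤ i := by
    by_contra hno
    push Not at hno
    exact hunc ((hI j).mono (fun i hi => (hno i hi).le))
  filter_upwards [hg i j hji] with n hn
  exact hn.trans (hi n)

/-- The same with a countable index type instead of `ℕ`. -/
lemma bounded_of_BC' (hBC : BorelConjecture) {ι : Type u} [LinearOrder ι] (hι : ¬ Countable ι)
    (hI : ∀ i : ι, (Iic i).Countable) {W : Type*} [Countable W] (φ : ι → W → ℕ) :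
    ∃ k : W → ℕ, ∀ i, ∀ᶠ w in cofinite, φ i w ≤ k w := by
  obtain ⟨e, he⟩ := exists_injective_nat W
  obtain ⟨k, hk⟩ := bounded_of_BC hBC hι hI (fun i => Function.extend e (φ i) 0)
  refine ⟨k ∘ e, fun i => ?_⟩
  have h1 := hk i
  rw [← Nat.cofinite_eq_atTop] at h1
  have h2 := he.tendsto_cofinite.eventually h1
  filter_upwards [h2] with w hw
  rwa [he.extend_apply] at hw

end Pool.Agent.R634.FSep
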