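import Pool.Agent.R634.FSep.Pos

/-!
If `C_p(X)` is `F`-separable, then small families of reals in `h(X)` have strong measure zero.
-/

open Filter Topology Set

namespace Pool.Agent.R634.FSep

universe u v

/-- one factor of the test functions -/
noncomputable def fac (δ : ℝ) (s y : ℝ) : ℝ := min 1 (max 0 (|y - s| / δ - 1))

lemma fac_zero {δ s y : ℝ} (hδ : 0 < δ) (h : |y - s| ≤ δ) : fac δ s y = 0 := by
  unfold fac
  have : |y - s| / δ - 1 ≤ 0 := by
    have := (div_le_one hδ).2 h
    linarith
  rw [max_eq_left this]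
  simp

lemma fac_one {δ s y : ℝ} (hδ : 0 < δ) (h : 2 * δ ≤ |y - s|) : fac δ s y = 1 := by
  unfold fac
  have : 1 ≤ |y - s| / δ - 1 := by
    have := (le_div_iff₀ hδ).2 h
    linarith
  rw [min_eq_left (le_max_of_le_right this)]

lemma fac_cont (δ s : ℝ) : Continuous (fac δ s) := by
  unfold fac
  fun_prop

/-- test functions -/
noncomputable def test (δ : ℝ) (S : Finset ℚ) (y : ℝ) : ℝ := 2 * ∏ s ∈ S, fac δ (s : ℝ) y

lemma test_cont (δ : ℝ) (S : Finset ℚ) : Continuous (test δ S) := by
  unfold test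
  exact continuous_const.mul (continuous_finsetProd _ (fun s _ => fac_cont δ _))

lemma test_zero {δ : ℝ} (hδ : 0 < δ) {S : Finset ℚ} {y : ℝ} {s : ℚ} (hs : s ∈ S)
    (h : |y - s| ≤ δ) : test δ S y = 0 := by
  unfold test
  rw [Finset.prod_eq_zero hs (fac_zero hδ h), mul_zero]

lemma test_two {δ : ℝ} (hδ : 0 < δ) {S : Finset ℚ} {y : ℝ} (h : ∀ s ∈ S, 2 * δ ≤ |y - s|) :
    test δ S y = 2 := by
  unfold test
  rw [Finset.prod_eq_one (fun s hs => fac_one hδ (h s hs)), mul_one]

section main

variable {X : Type u} [TopologicalSpace X]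

lemma cover_of_list (ε : ℕ → ℝ) (δ : ℕ → ℝ)
    (hδε : ∀ m r, r < m → 8 * δ m ≤ ε (Nat.pair m r)) {ι : Type v} (Y : ι → ℝ)
    (T : ℕ → List ℝ) (hT : ∀ m, (T m).length ≤ m)
    (hcov : ∀ i, ∃ m, ∃ s ∈ T m, |Y i - s| ≤ 4 * δ m) :
    ∃ a : ℕ → ℝ, range Y ⊆ ⋃ n, Icc (a n) (a n + ε n) := by
  refine ⟨fun n => (T n.unpair.1).getD n.unpair.2 0 - 4 * δ n.unpair.1, ?_⟩
  rintro _ ⟨i, rfl⟩
  obtain ⟨m, s, hs, h⟩ := hcov i
  obtain ⟨r, hr, hrs⟩ := List.getElem_of_mem hs
  rw [mem_iUnion]
  refine ⟨Nat.pair m r, ?_⟩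
  have h1 := hδε m r (lt_of_lt_of_le hr (hT m))
  simp only [Nat.unpair_pair]
  rw [List.getD_eq_getElem _ _ hr, hrs]
  rw [abs_le] at h
  constructor
  · linarith [h.1]
  · linarith [h.2]

theorem smz_range {A : Set (Cp X)} (hA : FClosure A = univ) {ι : Type v} (hb : BddFam ι)
    (h : X → ℝ) (hh : Continuous h) (x : ι → X) :
    StrongMeasureZero (range (fun i => h (x i))) := by
  classical
  intro ε hε
  have hδ0 : ∀ m : ℕ, ∃ d : ℝ, 0 < d ∧ ∀ r, r < m → 8 * d ≤ ε (Nat.pair m r) := by
    intro m
    rcases (Finset.range m).eq_empty_or_nonempty with h0 | h0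
    · refine ⟨1, one_pos, fun r hr => ?_⟩
      have : r ∈ Finset.range m := Finset.mem_range.2 hr
      rw [h0] at this
      simp at this
    · obtain ⟨r₀, hr₀, hmin⟩ := Finset.exists_min_image (Finset.range m)
        (fun r => ε (Nat.pair m r)) h0
      refine ⟨ε (Nat.pair m r₀) / 8, by have := hε (Nat.pair m r₀); linarith, fun r hr => ?_⟩
      have := hmin r (Finset.mem_range.2 hr)
      linarith
  choose δ hδ hδε using hδ0
  by_cases hC : ∃ m, ∃ S : Finset ℝ, S.card ≤ m ∧ ∀ i, ∃ s ∈ S, |h (x i) - s| ≤ 4 * δ m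
  · obtain ⟨m, S, hS, hcov⟩ := hC
    refine cover_of_list ε δ hδε (fun i => h (x i)) (fun m' => if m' = m then S.toList else [])
      (fun m' => ?_) (fun i => ?_)
    · by_cases hm : m' = m
      · simp [hm, hS]
      · simp [hm]
    · obtain ⟨s, hs, h1⟩ := hcov i
      exact ⟨m, s, by simp [hs], h1⟩
  · push Not at hC
    let W : Type := {w : ℕ × Finset ℚ // w.2.card ≤ w.1}
    let g : W → Cp X := fun w => ⟨fun y => test (δ w.1.1) w.1.2 (h y),
      (test_cont _ _).comp hh⟩
    have hω : ∀ F : Finset X, ∃ w, ∀ y ∈ F, (g w).1 y = 0 := by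
      intro F
      have hq : ∀ y : X, ∃ q : ℚ, |h y - q| < δ F.card := by
        intro y
        obtain ⟨q, hq1, hq2⟩ := exists_rat_btwn (show h y - δ F.card < h y + δ F.card by
          have := hδ F.card; linarith)
        refine ⟨q, ?_⟩
        rw [abs_lt]
        constructor <;> linarith
      choose q hq using hq
      refine ⟨⟨(F.card, F.image q), Finset.card_image_le⟩, fun y hy => ?_⟩
      exact test_zero (hδ _) (Finset.mem_image_of_mem q hy) (hq y).le
    have hne : ∀ w, ∃ i, 2 ≤ (g w).1 (x i) := by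
      rintro ⟨⟨m, S⟩, hS⟩
      obtain ⟨i, hi⟩ := hC m (S.image (fun q : ℚ => (q : ℝ))) (Finset.card_image_le.trans hS)
      refine ⟨i, ?_⟩
      have : test (δ m) S (h (x i)) = 2 := by
        refine test_two (hδ m) (fun s hs => ?_)
        have := hi (s : ℝ) (Finset.mem_image_of_mem _ hs)
        have := hδ m
        linarith
      exact this.ge
    obtain ⟨s, hfin, hs⟩ := key hA hb g x hω hne
    have hgood : ∀ j, ∀ᶠ i in atTop, ∃ q ∈ (s i).1.2, |h (x j) - q| < 2 * δ (s i).1.1 := by
      intro j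
      filter_upwards [hs j] with i hi
      by_contra hno
      push Not at hno
      have h2 : test (δ (s i).1.1) (s i).1.2 (h (x j)) = 2 := test_two (hδ _) hno
      have h3 : test (δ (s i).1.1) (s i).1.2 (h (x j)) < 1 := hi
      linarith
    -- levels are finite-to-one
    have hlev : ∀ m, {i | (s i).1.1 = m}.Finite := by
      intro m
      by_contra hinf
      have hinf' : {i | (s i).1.1 = m}.Infinite := hinf
      have hsep : ∀ j, j ≤ m + 1 → ∃ P : Finset ι, P.card = j ∧
          ∀ p ∈ P, ∀ q ∈ P, p ≠ q → 4 * δ m < |h (x p) - h (x q)| := by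
        intro j
        induction j with
        | zero => exact fun _ => ⟨∅, rfl, by simp⟩
        | succ j ih =>
          intro hj
          obtain ⟨P, hP, hP2⟩ := ih (by omega)
          obtain ⟨i, hi⟩ := hC m (P.image (fun p => h (x p)))
            (Finset.card_image_le.trans (by omega))
          have hi' : ∀ p ∈ P, 4 * δ m < |h (x i) - h (x p)| := fun p hp =>
            hi _ (Finset.mem_image_of_mem _ hp)
          have hiP : i ∉ P := by
            intro hmem
            have := hi' i hmem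
            have := hδ m
            simp at *
            linarith
          refine ⟨insert i P, by rw [Finset.card_insert_of_notMem hiP, hP], ?_⟩
          intro p hp q hq hpq
          rcases Finset.mem_insert.1 hp with hp' | hp'
          · rcases Finset.mem_insert.1 hq with hq' | hq'
            · exact absurd (hp'.trans hq'.symm) hpq
            · rw [hp']
              exact hi' q hq'
          · rcases Finset.mem_insert.1 hq with hq' | hq'
            · rw [hq', abs_sub_comm]
              exact hi' p hp'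
            · exact hP2 p hp' q hq' hpq
      obtain ⟨P, hP, hP2⟩ := hsep (m + 1) le_rfl
      have hall : ∀ᶠ i in atTop, ∀ p ∈ P, ∃ q ∈ (s i).1.2,
          |h (x p) - q| < 2 * δ (s i).1.1 := by
        rw [Filter.eventually_all_finset]
        exact fun p _ => hgood p
      obtain ⟨N, hN⟩ := eventually_atTop.1 hall
      obtain ⟨i, hi, hiN⟩ := hinf'.exists_gt N
      have hi' : (s i).1.1 = m := hi
      have h1 := hN i hiN.le
      rw [hi'] at h1
      have h1' : ∀ p : ι, ∃ q : ℚ, p ∈ P → (q ∈ (s i).1.2 ∧ |h (x p) - q| < 2 * δ m) := by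
        intro p
        by_cases hp : p ∈ P
        · obtain ⟨q, hq, hq2⟩ := h1 p hp
          exact ⟨q, fun _ => ⟨hq, hq2⟩⟩
        · exact ⟨0, fun h => absurd h hp⟩
      choose q hq using h1'
      have hcard : (s i).1.2.card < P.card := by
        have := (s i).2
        rw [hi'] at this
        omega
      obtain ⟨p₁, hp₁, p₂, hp₂, hne12, heq⟩ :=
        Finset.exists_ne_map_eq_of_card_lt_of_maps_to hcard (f := q) (fun p hp => (hq p hp).1)
      have h3 := (hq p₁ hp₁).2
      have h4 := (hq p₂ hp₂).2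
      rw [← heq] at h4
      have h5 := hP2 p₁ hp₁ p₂ hp₂ hne12
      have h6 : |h (x p₁) - h (x p₂)| ≤ |h (x p₁) - q p₁| + |h (x p₂) - q p₁| := by
        have := abs_sub_le (h (x p₁)) (q p₁ : ℝ) (h (x p₂))
        rwa [abs_sub_comm (q p₁ : ℝ) (h (x p₂))] at this
      linarith
    have htend : Tendsto (fun i => (s i).1.1) atTop atTop := by
      rw [← Nat.cofinite_eq_atTop]
      exact Tendsto.cofinite_of_finite_preimage_singleton hlev
    obtain ⟨φ, hφ, hφ2⟩ := Filter.strictMono_subseq_of_tendsto_atTop htend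
    refine cover_of_list ε δ hδε (fun i => h (x i))
      (fun m => if hm : ∃ i, (s (φ i)).1.1 = m then
        ((s (φ hm.choose)).1.2.image (fun q : ℚ => (q : ℝ))).toList else [])
      (fun m => ?_) (fun j => ?_)
    · by_cases hm : ∃ i, (s (φ i)).1.1 = m
      · simp only [hm, dif_pos, Finset.length_toList]
        refine Finset.card_image_le.trans ?_
        have h1 := (s (φ hm.choose)).2
        rw [hm.choose_spec] at h1
        exact h1
      · simp [hm]
    · obtain ⟨i, q, hq, hq2⟩ := (hφ.tendsto_atTop.eventually (hgood j)).exists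
      have hm : ∃ i', (s (φ i')).1.1 = (s (φ i)).1.1 := ⟨i, rfl⟩
      have hch : hm.choose = i := hφ2.injective hm.choose_spec
      refine ⟨(s (φ i)).1.1, (q : ℝ), ?_, ?_⟩
      · simp only [hm, dif_pos, hch]
        rw [Finset.mem_toList]
        exact Finset.mem_image_of_mem _ hq
      · have := hδ (s (φ i)).1.1
        linarith

end main

end Pool.Agent.R634.FSep
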