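import Pool.Agent.R634.FSep.Defs

/-!
`C_p` of the Sorgenfrey line is not `F`-separable.
-/

open Filter Topology Set MeasureTheory

namespace Pool.Agent.R634.FSep

/-- The points of the Sorgenfrey line: the real numbers. -/
structure Sorgenfrey : Type where
  /-- the underlying real number -/
  val : ℝ

/-- The Sorgenfrey line: the reals with the topology generated by the intervals `[a, b)`. -/
instance : TopologicalSpace Sorgenfrey :=
  TopologicalSpace.generateFrom {s | ∃ a b : ℝ, s = {x | a ≤ x.val ∧ x.val < b}}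

lemma sorg_tendsto {l : Filter ℕ} (u : ℕ → ℝ) (x : ℝ) (h1 : ∀ n, x ≤ u n)
    (h2 : Tendsto u l (𝓝 x)) : Tendsto (fun n => Sorgenfrey.mk (u n)) l (𝓝 ⟨x⟩) := by
  rw [TopologicalSpace.tendsto_nhds_generateFrom_iff]
  rintro s ⟨a, b, rfl⟩ hx
  have hx' : a ≤ x ∧ x < b := hx
  have h3 : ∀ᶠ n in l, u n < b := h2.eventually_lt_const hx'.2
  filter_upwards [h3] with n hn
  exact ⟨hx'.1.trans (h1 n), hn⟩

lemma sorg_measurable (f : Sorgenfrey → ℝ) (hf : Continuous f) :
    Measurable (fun x : ℝ => f ⟨x⟩) := by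
  let u : ℕ → ℝ → ℝ := fun n x => ((⌊((n : ℝ) + 1) * x⌋ : ℝ) + 1) / ((n : ℝ) + 1)
  have hu1 : ∀ n x, x ≤ u n x := by
    intro n x
    have hpos : (0 : ℝ) < (n : ℝ) + 1 := by positivity
    simp only [u]
    rw [le_div_iff₀ hpos]
    have := (Int.lt_floor_add_one (((n : ℝ) + 1) * x)).le
    linarith
  have hu2 : ∀ n x, u n x ≤ x + 1 / ((n : ℝ) + 1) := by
    intro n x
    have hpos : (0 : ℝ) < (n : ℝ) + 1 := by positivity
    simp only [u]
    rw [div_le_iff₀ hpos]
    have := Int.floor_le (((n : ℝ) + 1) * x)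
    have h3 : (x + 1 / ((n : ℝ) + 1)) * ((n : ℝ) + 1) = ((n : ℝ) + 1) * x + 1 := by
      field_simp
    rw [h3]
    linarith
  refine measurable_of_tendsto_metrizable (f := fun n x => f ⟨u n x⟩) (fun n => ?_) ?_
  · let G : ℤ → ℝ := fun k => f ⟨((k : ℝ) + 1) / ((n : ℝ) + 1)⟩
    have h1 : Measurable G := measurable_from_top
    have h2 : Measurable (fun x : ℝ => ⌊((n : ℝ) + 1) * x⌋) :=
      Int.measurable_floor.comp (measurable_const.mul measurable_id)
    exact h1.comp h2
  · rw [tendsto_pi_nhds]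
    intro x
    have h3 : Tendsto (fun n => u n x) atTop (𝓝 x) := by
      have h4 : Tendsto (fun n : ℕ => x + 1 / ((n : ℝ) + 1)) atTop (𝓝 x) := by
        have := (tendsto_one_div_add_atTop_nhds_zero_nat (𝕜 := ℝ)).const_add x
        simpa using this
      exact tendsto_of_tendsto_of_tendsto_of_le_of_le tendsto_const_nhds h4
        (fun n => hu1 n x) (fun n => hu2 n x)
    exact (hf.tendsto ⟨x⟩).comp (sorg_tendsto (fun n => u n x) x (fun n => hu1 n x) h3)

lemma sorg_continuous (f : ℝ → ℝ) (hf : Continuous f) :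
    Continuous (fun x : Sorgenfrey => f x.val) := by
  have hid : Continuous (fun x : Sorgenfrey => x.val) := by
    rw [continuous_iff_continuousAt]
    intro x
    rw [ContinuousAt, Metric.tendsto_nhds]
    intro ε hε
    have h1 : IsOpen {y : Sorgenfrey | x.val ≤ y.val ∧ y.val < x.val + ε} :=
      TopologicalSpace.isOpen_generateFrom_of_mem ⟨x.val, x.val + ε, rfl⟩
    have h2 : x ∈ {y : Sorgenfrey | x.val ≤ y.val ∧ y.val < x.val + ε} :=
      ⟨le_rfl, by linarith⟩
    filter_upwards [h1.mem_nhds h2] with y hy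
    have hy' : x.val ≤ y.val ∧ y.val < x.val + ε := hy
    rw [Real.dist_eq, abs_lt]
    constructor <;> linarith [hy'.1, hy'.2]
  exact hf.comp hid

theorem sorg_not_fseparable : ¬ FSeparable (Cp Sorgenfrey) := by
  classical
  rintro ⟨A, -, hA⟩
  let μ : Measure ℝ := volume.restrict (Icc (0 : ℝ) 1)
  have hμ1 : μ univ = 1 := by simp [μ]
  have : IsFiniteMeasure μ := ⟨by rw [hμ1]; exact ENNReal.one_lt_top⟩
  have hmeas : ∀ a : Cp Sorgenfrey, Measurable (fun x : ℝ => a.1 ⟨x⟩) :=
    fun a => sorg_measurable a.1 a.2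
  have hseq : ∀ f : Cp Sorgenfrey, ∃ u : ℕ → Cp Sorgenfrey, (∀ n, u n ∈ A) ∧
      Tendsto u atTop (𝓝 f) := by
    intro f
    have hf : f ∈ FClosure A := by rw [hA]; trivial
    exact hf.2 A subset_rfl hf.1
  -- pointwise convergence implies convergence in measure
  have hinm : ∀ (u : ℕ → Cp Sorgenfrey) (f : Cp Sorgenfrey), Tendsto u atTop (𝓝 f) →
      Tendsto (fun n => μ {x : ℝ | 1 ≤ |(u n).1 ⟨x⟩ - f.1 ⟨x⟩|}) atTop (𝓝 0) := by
    intro u f hu
    rw [tendsto_iff_pointwise] at hu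
    have h1 : TendstoInMeasure μ (fun n (x : ℝ) => (u n).1 ⟨x⟩) atTop (fun x : ℝ => f.1 ⟨x⟩) := by
      refine tendstoInMeasure_of_tendsto_ae (fun n => (hmeas (u n)).aestronglyMeasurable) ?_
      exact Eventually.of_forall (fun x => hu ⟨x⟩)
    have h2 := (tendstoInMeasure_iff_dist.1 h1) 1 one_pos
    simpa [Real.dist_eq] using h2
  let A' : Set (Cp Sorgenfrey) := {a | a ∈ A ∧ (1 / 2 : ENNReal) ≤ μ {x : ℝ | 1 ≤ |a.1 ⟨x⟩ - 0|}}
  let z : Cp Sorgenfrey := ⟨fun _ => 0, continuous_const⟩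
  have hz : z ∈ closure A' := by
    rw [mem_closure_iff_fin]
    intro F ε hε
    -- the test function
    let δ : ℝ := 1 / (8 * (F.card + 1))
    have hδ : 0 < δ := by positivity
    let g₀ : ℝ → ℝ := fun x => 2 * ∏ s ∈ F, min 1 (|x - s.val| / δ)
    have hg₀ : Continuous g₀ := by
      refine continuous_const.mul (continuous_finsetProd _ (fun s _ => ?_))
      fun_prop
    let g : Cp Sorgenfrey := ⟨fun x => g₀ x.val, sorg_continuous g₀ hg₀⟩
    have hgF : ∀ x ∈ F, g.1 x = 0 := by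
      intro x hx
      show 2 * ∏ s ∈ F, min 1 (|x.val - s.val| / δ) = 0
      rw [Finset.prod_eq_zero hx (by simp), mul_zero]
    have hg2 : μ {x : ℝ | g₀ x ≠ 2} ≤ 1 / 4 := by
      have hsub : {x : ℝ | g₀ x ≠ 2} ⊆ ⋃ s ∈ F, Ioo (s.val - δ) (s.val + δ) := by
        intro x hx
        by_contra hno
        apply hx
        have hall : ∀ s ∈ F, min 1 (|x - s.val| / δ) = 1 := by
          intro s hs
          apply min_eq_left
          rw [le_div_iff₀ hδ, one_mul]
          by_contra hlt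
          push Not at hlt
          apply hno
          rw [abs_lt] at hlt
          simp only [mem_iUnion]
          exact ⟨s, hs, by linarith [hlt.1], by linarith [hlt.2]⟩
        show 2 * ∏ s ∈ F, min 1 (|x - s.val| / δ) = 2
        rw [Finset.prod_eq_one hall, mul_one]
      calc μ {x : ℝ | g₀ x ≠ 2} ≤ volume {x : ℝ | g₀ x ≠ 2} := Measure.restrict_apply_le _ _
        _ ≤ volume (⋃ s ∈ F, Ioo (s.val - δ) (s.val + δ)) := measure_mono hsub
        _ ≤ ∑ s ∈ F, volume (Ioo (s.val - δ) (s.val + δ)) := measure_biUnion_finset_le _ _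
        _ = ∑ s ∈ F, ENNReal.ofReal (2 * δ) := by
            refine Finset.sum_congr rfl (fun s _ => ?_)
            rw [Real.volume_Ioo]
            congr 1
            ring
        _ = ENNReal.ofReal (F.card * (2 * δ)) := by
            rw [Finset.sum_const, nsmul_eq_mul, ENNReal.ofReal_mul (by positivity)]
            simp
        _ ≤ ENNReal.ofReal (1 / 4) := by
            apply ENNReal.ofReal_le_ofReal
            simp only [δ]
            have : (0 : ℝ) < (F.card : ℝ) + 1 := by positivity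
            rw [show (F.card : ℝ) * (2 * (1 / (8 * ((F.card : ℝ) + 1)))) =
              (F.card : ℝ) / (4 * ((F.card : ℝ) + 1)) by field_simp; ring]
            rw [div_le_div_iff₀ (by positivity) (by norm_num)]
            linarith
        _ = 1 / 4 := by
            rw [ENNReal.ofReal_div_of_pos (by norm_num)]
            simp
    obtain ⟨u, huA, hu⟩ := hseq g
    have h1 := hinm u g hu
    have h2 : ∀ᶠ n in atTop, μ {x : ℝ | 1 ≤ |(u n).1 ⟨x⟩ - g.1 ⟨x⟩|} < 1 / 4 := by
      apply h1.eventually_lt_const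
      simp
    have h3 : ∀ᶠ n in atTop, ∀ x ∈ F, |(u n).1 x - g.1 x| < ε := by
      rw [Filter.eventually_all_finset]
      intro x _
      have := ((tendsto_iff_pointwise _ _).1 hu) x
      obtain ⟨N, hN⟩ := (Metric.tendsto_atTop.1 this) ε hε
      filter_upwards [eventually_ge_atTop N] with n hn
      simpa [Real.dist_eq] using hN n hn
    obtain ⟨n, hn2, hn3⟩ := (h2.and h3).exists
    refine ⟨u n, ⟨huA n, ?_⟩, fun x hx => ?_⟩
    · have hcov : (univ : Set ℝ) ⊆ {x : ℝ | 1 ≤ |(u n).1 ⟨x⟩ - 0|} ∪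
          ({x : ℝ | g₀ x ≠ 2} ∪ {x : ℝ | 1 ≤ |(u n).1 ⟨x⟩ - g.1 ⟨x⟩|}) := by
        intro x _
        by_cases hx1 : g₀ x = 2
        · by_cases hx2 : 1 ≤ |(u n).1 ⟨x⟩ - g.1 ⟨x⟩|
          · exact Or.inr (Or.inr hx2)
          · left
            push Not at hx2
            have hgx : g.1 ⟨x⟩ = 2 := hx1
            rw [hgx, abs_lt] at hx2
            show 1 ≤ |(u n).1 ⟨x⟩ - 0|
            rw [sub_zero]
            exact le_trans (by linarith [hx2.1]) (le_abs_self _)
        · exact Or.inr (Or.inl hx1)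
      have h5 : (1 : ENNReal) ≤ μ {x : ℝ | 1 ≤ |(u n).1 ⟨x⟩ - 0|} + (1 / 4 + 1 / 4) := by
        refine hμ1.ge.trans ((measure_mono hcov).trans ((measure_union_le _ _).trans ?_))
        refine add_le_add le_rfl ((measure_union_le _ _).trans ?_)
        exact add_le_add hg2 hn2.le
      have h6 : (1 / 4 + 1 / 4 : ENNReal) = 1 / 2 := by
        rw [ENNReal.div_add_div_same]
        norm_num
        rw [ENNReal.div_eq_inv_mul, show (4 : ENNReal) = 2 * 2 by norm_num,
          ENNReal.mul_inv (by norm_num) (by norm_num), mul_assoc,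
          ENNReal.inv_mul_cancel (by norm_num) (by norm_num), mul_one]
      rw [h6] at h5
      by_contra hlt
      push Not at hlt
      have h7 : μ {x : ℝ | 1 ≤ |(u n).1 ⟨x⟩ - 0|} + 1 / 2 < 1 / 2 + 1 / 2 :=
        ENNReal.add_lt_add_right (by simp) hlt
      rw [ENNReal.add_halves] at h7
      exact absurd h5 (not_le.2 h7)
    · have := hn3 x hx
      rw [hgF x hx] at this
      exact this
  have hzF : z ∈ FClosure A := by rw [hA]; trivial
  obtain ⟨u, huA, hu⟩ := hzF.2 A' (fun a ha => ha.1) hz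
  have h1 := hinm u z hu
  have h2 : ∀ᶠ n in atTop, μ {x : ℝ | 1 ≤ |(u n).1 ⟨x⟩ - z.1 ⟨x⟩|} < 1 / 2 := by
    apply h1.eventually_lt_const
    simp
  obtain ⟨n, hn⟩ := h2.exists
  exact absurd (huA n).2 (not_le.2 hn)

end Pool.Agent.R634.FSep
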